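import Pool.Agent.Helper14.CPX.Stmts

/-!
Row MODEL of MP_47dd75_co: direction angles of the chords of a convex polygon.
-/

set_option autoImplicit false

namespace Pool.Agent.Helper11.CPX

open Pool.Agent.Helper14.CPX Complex

/-- Functions of pairs as functions of the index. -/
theorem exists_idx (T : ℕ → ℕ → ℝ) : ∃ f : ℕ → ℝ, ∀ i j, i < j → f (tri j + i) = T i j := by
  classical
  refine ⟨fun n => if h : ∃ q : ℕ × ℕ, q.1 < q.2 ∧ tri q.2 + q.1 = n then
    T (Classical.choose h).1 (Classical.choose h).2 else 0, ?_⟩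
  intro i j hij
  have h : ∃ q : ℕ × ℕ, q.1 < q.2 ∧ tri q.2 + q.1 = tri j + i := ⟨(i, j), hij, rfl⟩
  simp only
  rw [dif_pos h]
  obtain ⟨h1, h2⟩ := Classical.choose_spec h
  obtain ⟨h3, h4⟩ := tri_inj h1 hij h2
  rw [h3, h4]

/-- `sin d > 0` and `|d| < π` give `0 < d`. -/
theorem pos_of_sin {d : ℝ} (h : 0 < Real.sin d) (h1 : -Real.pi < d) : 0 < d := by
  by_contra hd
  push Not at hd
  have := Real.sin_nonpos_of_nonpos_of_neg_pi_le hd h1.le
  linarith

theorem crs_eq (p q r : ℂ) : crs p q r = ((starRingEnd ℂ) (q - p) * (r - p)).im := by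
  unfold crs
  simp only [mul_im, sub_re, sub_im, conj_re, conj_im, map_sub]
  ring

theorem crs_eq1 (p q r : ℂ) : crs p q r = ((starRingEnd ℂ) (q - p) * (r - q)).im := by
  unfold crs
  simp only [mul_im, sub_re, sub_im, conj_re, conj_im, map_sub]
  ring

theorem crs_eq2 (p q r : ℂ) : crs p q r = ((starRingEnd ℂ) (r - p) * (r - q)).im := by
  unfold crs
  simp only [mul_im, sub_re, sub_im, conj_re, conj_im, map_sub]
  ring

/-- The product of polar forms with a common unit factor. -/
theorem conj_mul_polar {u : ℂ} (hu : ‖u‖ = 1) {a b s t : ℝ} {z w : ℂ}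
    (hz : z = u * (a * exp (s * I))) (hw : w = u * (b * exp (t * I))) :
    ((starRingEnd ℂ) z * w).im = a * b * Real.sin (t - s) ∧
      ((starRingEnd ℂ) z * w).re = a * b * Real.cos (t - s) := by
  have h1 : (starRingEnd ℂ) z * w = ((a * b : ℝ) : ℂ) * exp ((t - s : ℝ) * I) := by
    rw [hz, hw, map_mul, map_mul, conj_ofReal, ← exp_conj, map_mul, conj_I, conj_ofReal]
    have h2 : (starRingEnd ℂ) u * u = 1 := by
      rw [mul_comm, mul_conj, normSq_eq_norm_sq, hu]; simp
    have h3 : exp ((t - s : ℝ) * I) = exp (s * -I) * exp (t * I) := by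
      rw [← exp_add]; congr 1; push_cast; ring
    rw [h3]
    push_cast
    linear_combination (a * b * exp (s * -I) * exp (t * I)) * h2
  rw [h1]
  constructor
  · rw [im_ofReal_mul, exp_ofReal_mul_I_im]
  · rw [re_ofReal_mul, exp_ofReal_mul_I_re]

/-- Polar form of `z` with respect to `w`. -/
theorem polar_div (z w : ℂ) (hw : w ≠ 0) :
    z = w / (‖w‖ : ℂ) * ((‖z‖ : ℝ) * exp ((arg (z / w) : ℝ) * I)) := by
  have h1 := norm_mul_exp_arg_mul_I (z / w)
  have h2 : (‖z / w‖ : ℂ) = (‖z‖ : ℂ) / (‖w‖ : ℂ) := by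
    rw [norm_div]; push_cast; rfl
  rw [h2] at h1
  have hn : (‖w‖ : ℂ) ≠ 0 := by rw [Ne, ofReal_eq_zero, norm_eq_zero]; exact hw
  generalize exp ((arg (z / w) : ℝ) * I) = e at *
  have h3 : z = w * (z / w) := by field_simp
  conv_lhs => rw [h3, ← h1]
  field_simp

/-- The laws of cosines. -/
theorem cos0 (p q r : ℂ) : ‖r - q‖ ^ 2 = ‖q - p‖ ^ 2 + ‖r - p‖ ^ 2 -
    2 * ((starRingEnd ℂ) (q - p) * (r - p)).re := by
  rw [← normSq_eq_norm_sq, ← normSq_eq_norm_sq, ← normSq_eq_norm_sq]
  simp only [normSq_apply, mul_re, sub_re, sub_im, conj_re, conj_im, map_sub]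
  ring

theorem cos1 (p q r : ℂ) : ‖r - p‖ ^ 2 = ‖q - p‖ ^ 2 + ‖r - q‖ ^ 2 +
    2 * ((starRingEnd ℂ) (q - p) * (r - q)).re := by
  rw [← normSq_eq_norm_sq, ← normSq_eq_norm_sq, ← normSq_eq_norm_sq]
  simp only [normSq_apply, mul_re, sub_re, sub_im, conj_re, conj_im, map_sub]
  ring

theorem cos2 (p q r : ℂ) : ‖q - p‖ ^ 2 = ‖r - p‖ ^ 2 + ‖r - q‖ ^ 2 -
    2 * ((starRingEnd ℂ) (r - p) * (r - q)).re := by
  rw [← normSq_eq_norm_sq, ← normSq_eq_norm_sq, ← normSq_eq_norm_sq]
  simp only [normSq_apply, mul_re, sub_re, sub_im, conj_re, conj_im, map_sub]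
  ring

/-- Row MODEL, for at least three vertices. -/
theorem st_MODEL (K : ℕ) (P : ℕ → ℂ) (hK : 3 ≤ K) (hP : CCW K P) :
    ∃ th len : ℕ → ℝ, Model K th len ∧
      ∀ i j, i < j → j < K → len (tri j + i) = dist (P i) (P j) := by
  -- the points are different
  have hne : ∀ i j, i < j → j < K → P j - P i ≠ 0 := by
    intro i j hij hj h0
    have hij' : P i = P j := (sub_eq_zero.1 h0).symm
    rcases Nat.lt_or_ge 0 i with hi | hi
    · have := hP 0 i j hi hij hj
      rw [hij'] at this
      unfold crs at this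
      nlinarith
    · have hi0 : i = 0 := by omega
      subst hi0
      rcases Nat.lt_or_ge 1 j with hj1 | hj1
      · have := hP 0 1 j one_pos hj1 hj
        rw [← hij'] at this
        unfold crs at this
        nlinarith
      · have hj0 : j = 1 := by omega
        subst hj0
        have := hP 0 1 2 one_pos (by norm_num) (by omega)
        rw [← hij'] at this
        unfold crs at this
        nlinarith
  set a0 : ℕ → ℝ := fun j => arg ((P j - P 0) / (P 1 - P 0)) with ha0
  set T : ℕ → ℕ → ℝ := fun i j =>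
    if i = 0 then a0 j else a0 i + arg ((P j - P i) / (P i - P 0)) with hT
  obtain ⟨th, hth⟩ := exists_idx T
  obtain ⟨len, hlen⟩ := exists_idx fun i j => dist (P i) (P j)
  have hl : ∀ i j, i < j → len (tri j + i) = ‖P j - P i‖ := by
    intro i j hij
    rw [hlen i j hij, dist_eq_norm, norm_sub_rev]
  set u : ℂ := (P 1 - P 0) / (‖P 1 - P 0‖ : ℂ) with hu
  have h10 := hne 0 1 one_pos (by omega)
  have hn10 : (‖P 1 - P 0‖ : ℂ) ≠ 0 := by
    rw [Ne, ofReal_eq_zero, norm_eq_zero]; exact h10
  have hu1 : ‖u‖ = 1 := by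
    rw [hu, norm_div, norm_real, norm_norm, div_self]
    rwa [Ne, norm_eq_zero]
  -- polar forms
  have hpol0 : ∀ j, 0 < j → j < K →
      P j - P 0 = u * ((‖P j - P 0‖ : ℝ) * exp ((a0 j : ℝ) * I)) := by
    intro j _ _
    exact polar_div _ _ h10
  have hpol : ∀ i j, i < j → j < K →
      P j - P i = u * ((len (tri j + i) : ℝ) * exp ((th (tri j + i) : ℝ) * I)) := by
    intro i j hij hj
    rw [hth i j hij, hl i j hij]
    simp only [hT]
    by_cases hi : i = 0
    · subst hi
      rw [if_pos rfl]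
      exact hpol0 j hij hj
    · rw [if_neg hi]
      have hi0 := hne 0 i (Nat.pos_of_ne_zero hi) (hij.trans hj)
      have hni : (‖P i - P 0‖ : ℂ) ≠ 0 := by
        rw [Ne, ofReal_eq_zero, norm_eq_zero]; exact hi0
      have h1 := polar_div (P j - P i) (P i - P 0) hi0
      have h4 := hpol0 i (Nat.pos_of_ne_zero hi) (hij.trans hj)
      have h5 : exp (((a0 i + arg ((P j - P i) / (P i - P 0)) : ℝ)) * I) =
          exp ((a0 i : ℝ) * I) * exp ((arg ((P j - P i) / (P i - P 0)) : ℝ) * I) := by
        rw [← exp_add]; congr 1; push_cast; ring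
      have h6 : (P i - P 0) / (‖P i - P 0‖ : ℂ) = u * exp ((a0 i : ℝ) * I) := by
        rw [div_eq_iff hni]
        refine h4.trans ?_
        ring
      rw [h5]
      refine h1.trans ?_
      rw [h6]
      ring
  have hlpos : ∀ i j, i < j → j < K → 0 < len (tri j + i) := by
    intro i j hij hj
    rw [hl i j hij]
    exact norm_pos_iff.2 (hne i j hij hj)
  -- sines
  have s0 : ∀ i j l, i < j → j < l → l < K →
      0 < Real.sin (th (tri l + i) - th (tri j + i)) := by
    intro i j l hij hjl hl'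
    have h1 := hP i j l hij hjl hl'
    rw [crs_eq, (conj_mul_polar hu1 (hpol i j hij (hjl.trans hl'))
      (hpol i l (hij.trans hjl) hl')).1] at h1
    exact (pos_iff_pos_of_mul_pos h1).1 (mul_pos (hlpos i j hij (hjl.trans hl'))
      (hlpos i l (hij.trans hjl) hl'))
  have s1 : ∀ i j l, i < j → j < l → l < K →
      0 < Real.sin (th (tri l + j) - th (tri j + i)) := by
    intro i j l hij hjl hl'
    have h1 := hP i j l hij hjl hl'
    rw [crs_eq1, (conj_mul_polar hu1 (hpol i j hij (hjl.trans hl'))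
      (hpol j l hjl hl')).1] at h1
    exact (pos_iff_pos_of_mul_pos h1).1 (mul_pos (hlpos i j hij (hjl.trans hl'))
      (hlpos j l hjl hl'))
  have s2 : ∀ i j l, i < j → j < l → l < K →
      0 < Real.sin (th (tri l + j) - th (tri l + i)) := by
    intro i j l hij hjl hl'
    have h1 := hP i j l hij hjl hl'
    rw [crs_eq2, (conj_mul_polar hu1 (hpol i l (hij.trans hjl) hl')
      (hpol j l hjl hl')).1] at h1
    exact (pos_iff_pos_of_mul_pos h1).1 (mul_pos (hlpos i l (hij.trans hjl) hl')
      (hlpos j l hjl hl'))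
  -- ranges
  have r0 : ∀ j, 0 < j → j < K → 0 ≤ th (tri j + 0) ∧ th (tri j + 0) < Real.pi := by
    intro j hj0 hj
    rw [hth 0 j hj0]
    simp only [hT, if_true, ha0]
    rcases Nat.lt_or_ge 1 j with h1 | h1
    · have h2 := hP 0 1 j one_pos h1 hj
      have h3 : 0 < ((P j - P 0) / (P 1 - P 0)).im := by
        rw [crs_eq] at h2
        have h4 : (P j - P 0) / (P 1 - P 0) =
            ((normSq (P 1 - P 0))⁻¹ : ℝ) * ((starRingEnd ℂ) (P 1 - P 0) * (P j - P 0)) := by
          rw [div_eq_mul_inv, inv_def]; push_cast; ring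
        rw [h4, im_ofReal_mul]
        exact mul_pos (inv_pos.2 (normSq_pos.2 h10)) h2
      exact ⟨arg_nonneg_iff.2 h3.le, lt_of_le_of_ne (arg_le_pi _) fun h5 => by
        rw [arg_eq_pi_iff] at h5; linarith [h5.2]⟩
    · have hj1 : j = 1 := by omega
      subst hj1
      rw [div_self h10, arg_one]
      exact ⟨le_rfl, Real.pi_pos⟩
  have r1 : ∀ i j, 0 < i → i < j → j < K → th (tri i + 0) < th (tri j + i) ∧
      th (tri j + i) < th (tri i + 0) + Real.pi := by
    intro i j hi hij hj
    have h0 : th (tri i + 0) = a0 i := by rw [hth 0 i hi]; simp [hT]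
    have h1 : th (tri j + i) = a0 i + arg ((P j - P i) / (P i - P 0)) := by
      rw [hth i j hij]; simp [hT, hi.ne']
    have hi0 := hne 0 i hi (hij.trans hj)
    have h2 := hP 0 i j hi hij hj
    have h3 : 0 < ((P j - P i) / (P i - P 0)).im := by
      rw [crs_eq1] at h2
      have h4 : (P j - P i) / (P i - P 0) =
          ((normSq (P i - P 0))⁻¹ : ℝ) * ((starRingEnd ℂ) (P i - P 0) * (P j - P i)) := by
        rw [div_eq_mul_inv, inv_def]; push_cast; ring
      rw [h4, im_ofReal_mul]
      exact mul_pos (inv_pos.2 (normSq_pos.2 hi0)) h2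
    have h5 : 0 < arg ((P j - P i) / (P i - P 0)) := by
      refine lt_of_le_of_ne (arg_nonneg_iff.2 h3.le) fun h6 => ?_
      have := (arg_eq_zero_iff.1 h6.symm).2
      linarith
    have h6 : arg ((P j - P i) / (P i - P 0)) < Real.pi :=
      lt_of_le_of_ne (arg_le_pi _) fun h7 => by
        rw [arg_eq_pi_iff] at h7; linarith [h7.2]
    rw [h0, h1]
    constructor <;> linarith
  have pp := Real.pi_pos
  -- the case of the first vertex
  have z0 : ∀ j l, 0 < j → j < l → l < K → th (tri j + 0) < th (tri l + 0) := by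
    intro j l hj hjl hl'
    have h1 := r0 j hj (hjl.trans hl')
    have h2 := r0 l (hj.trans hjl) hl'
    have h3 := pos_of_sin (s0 0 j l hj hjl hl') (by linarith)
    linarith
  have z2 : ∀ j l, 0 < j → j < l → l < K → th (tri l + 0) < th (tri l + j) := by
    intro j l hj hjl hl'
    have h1 := r0 j hj (hjl.trans hl')
    have h2 := r0 l (hj.trans hjl) hl'
    have h3 := r1 j l hj hjl hl'
    have h4 := z0 j l hj hjl hl'
    have h5 := pos_of_sin (s2 0 j l hj hjl hl') (by linarith)
    linarith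
  refine ⟨th, len, ⟨hlpos, ?_, ?_, ?_, ?_, ?_, ?_⟩, fun i j hij _ => hlen i j hij⟩
  · intro i j l hij hjl hl'
    rcases Nat.eq_zero_or_pos i with hi | hi
    · subst hi; exact z0 j l hij hjl hl'
    · have h1 := r1 i j hi hij (hjl.trans hl')
      have h2 := r1 i l hi (hij.trans hjl) hl'
      have h3 := pos_of_sin (s0 i j l hij hjl hl') (by linarith)
      linarith
  · intro i j l hij hjl hl'
    rcases Nat.eq_zero_or_pos i with hi | hi
    · subst hi; exact z2 j l hij hjl hl'
    · have h1 := r1 i l hi (hij.trans hjl) hl'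
      have h2 := r1 j l (hi.trans hij) hjl hl'
      have h3 := z2 i l hi (hij.trans hjl) hl'
      have h4 := z0 i j hi hij (hjl.trans hl')
      have h5 := z0 j l (hi.trans hij) hjl hl'
      have h6 := pos_of_sin (s2 i j l hij hjl hl') (by linarith)
      linarith
  · intro i j l hij hjl hl'
    rcases Nat.eq_zero_or_pos i with hi | hi
    · subst hi
      have := r1 j l hij hjl hl'
      linarith
    · have h1 := r1 i j hi hij (hjl.trans hl')
      have h2 := r1 j l (hi.trans hij) hjl hl'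
      have h3 := z2 i j hi hij (hjl.trans hl')
      linarith
  · intro i j l hij hjl hl'
    have h1 := (conj_mul_polar hu1 (hpol i j hij (hjl.trans hl'))
      (hpol i l (hij.trans hjl) hl')).2
    have h2 := cos0 (P i) (P j) (P l)
    rw [h1, ← hl i j hij, ← hl j l hjl, ← hl i l (hij.trans hjl)] at h2
    rw [h2]
    ring
  · intro i j l hij hjl hl'
    have h1 := (conj_mul_polar hu1 (hpol i j hij (hjl.trans hl'))
      (hpol j l hjl hl')).2
    have h2 := cos1 (P i) (P j) (P l)
    rw [h1, ← hl i j hij, ← hl j l hjl, ← hl i l (hij.trans hjl)] at h2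
    rw [h2]
    ring
  · intro i j l hij hjl hl'
    have h1 := (conj_mul_polar hu1 (hpol i l (hij.trans hjl) hl')
      (hpol j l hjl hl')).2
    have h2 := cos2 (P i) (P j) (P l)
    rw [h1, ← hl i j hij, ← hl j l hjl, ← hl i l (hij.trans hjl)] at h2
    rw [h2]
    ring

end Pool.Agent.Helper11.CPX
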